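import Pool.Agent.Helper99.AA.Basic
import Pool.Agent.Helper45.MR.H4

/-!
# Project AA, row TA: tail of the mean square   [helper58]
-/

set_option autoImplicit false

open Finset MeasureTheory
open scoped BigOperators Nat ArithmeticFunction.vonMangoldt FourierTransform

namespace Pool.Agent.Helper58.AA

open Pool.Agent.Helper40.MR Pool.Agent.Helper99.AA

/-- the line `re s = 1 + η` -/
noncomputable def Dx (η x : ℝ) : ℂ := ((1 + η : ℝ) : ℂ) + ((2 * Real.pi * x : ℝ) : ℂ) * Complex.I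

lemma ta_norm (η x : ℝ) : ‖Dx η x‖ ^ 2 = (1 + η) ^ 2 + (2 * Real.pi * x) ^ 2 := by
  rw [← Complex.normSq_eq_norm_sq, Complex.normSq_apply]
  simp [Dx]
  ring

lemma ta_shift {a : ℕ → ℂ} (ha : ∀ n, ‖a n‖ ≤ Λ n) {η : ℝ} (hη : 0 < η) (w : ℝ) :
    Integrable (fun x => ‖LSeries a (Dx η x) / Dx η (x - w)‖ ^ 2) ∧
      ∫ x, ‖LSeries a (Dx η x) / Dx η (x - w)‖ ^ 2 ≤ (Real.log 4 + 4) ^ 2 / (2 * η) := by
  set b : ℕ → ℂ := fun n => a n * nit n (2 * Real.pi * w) with hb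
  have hb' : ∀ n, ‖b n‖ ≤ Λ n := by
    intro n
    rw [hb]
    simp only
    rw [norm_mul, norm_nit, mul_one]
    exact ha n
  have hKv : ∀ v : ℝ, 0 ≤ v → ‖Sg b (Real.exp v)‖ ≤
      (Real.log 4 + 4) * Real.exp ((1 + η - η) * v) := by
    intro v _
    have := h4_sum_vM hb' v
    rwa [show (1 + η - η) * v = v by ring]
  obtain ⟨q1, -⟩ := h4_F_int hη hKv
  obtain ⟨q2, q3⟩ := h4_F_sq hη hKv
  obtain ⟨r1, r2⟩ := h4_plancherel _ q1 q2
  have sL : LSeriesSummable (fun n => (Λ n : ℂ)) ((1 + η : ℝ) : ℂ) :=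
    ArithmeticFunction.LSeriesSummable_vonMangoldt (by rw [Complex.ofReal_re]; linarith)
  have hs : LSeriesSummable b ((1 + η : ℝ) : ℂ) :=
    (h4_LS_le (b := fun n => Λ n) hb' sL (Complex.ofReal_re _)).1
  have e : (fun ξ => ‖𝓕 (h4F b η) ξ‖ ^ 2) =
      fun ξ => ‖LSeries a (Dx η (ξ + w)) / Dx η ξ‖ ^ 2 := by
    funext ξ
    rw [h4_F_fourier hη hs ξ, hb, LSeries_nit]
    have : ((1 + η : ℝ) : ℂ) + ((2 * Real.pi * ξ : ℝ) : ℂ) * Complex.I +
        ((2 * Real.pi * w : ℝ) : ℂ) * Complex.I = Dx η (ξ + w) := by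
      unfold Dx
      push_cast
      ring
    rw [this]
    rfl
  rw [e] at r1 r2
  have e2 : (fun x => ‖LSeries a (Dx η x) / Dx η (x - w)‖ ^ 2) =
      fun x => (fun ξ => ‖LSeries a (Dx η (ξ + w)) / Dx η ξ‖ ^ 2) (x - w) := by
    funext x
    simp
  rw [e2]
  refine ⟨r1.comp_sub_right w, ?_⟩
  rw [integral_sub_right_eq_self (fun ξ => ‖LSeries a (Dx η (ξ + w)) / Dx η ξ‖ ^ 2) w, r2]
  exact q3

/-- weights -/
noncomputable def cw (y : ℝ) (k : ℕ) : ℝ := if ⌊y⌋₊ < k then ((k : ℝ) ^ 2)⁻¹ else 0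

lemma cw_nonneg (y : ℝ) (k : ℕ) : 0 ≤ cw y k := by
  unfold cw
  split_ifs
  · positivity
  · exact le_rfl

lemma cw_sum {y : ℝ} (hy : 0 < y) (n : ℕ) : ∑ k ∈ range n, cw y k ≤ 2 / y := by
  have h1 : ∑ k ∈ range n, cw y k = ∑ k ∈ Ioo ⌊y⌋₊ n, ((k : ℝ) ^ 2)⁻¹ := by
    unfold cw
    rw [← Finset.sum_filter]
    congr 1
    ext k
    simp only [Finset.mem_filter, Finset.mem_range, Finset.mem_Ioo]
    exact ⟨fun h => ⟨h.2, h.1⟩, fun h => ⟨h.2, h.1⟩⟩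
  rw [h1]
  refine (sum_Ioo_inv_sq_le ⌊y⌋₊ n).trans ?_
  exact div_le_div_of_nonneg_left (by norm_num) hy (Nat.lt_floor_add_one y).le

lemma ta_pt {L : ℂ} {η U x : ℝ} (hη : 0 < η) (hη1 : η ≤ 1) (hU : 1 ≤ U)
    (hx : U < |2 * Real.pi * x|) : ‖L / Dx η x‖ ^ 2 ≤ 88 * cw (U / (2 * Real.pi)) ⌈|x|⌉₊ *
      (‖L / Dx η (x - (⌈|x|⌉₊ : ℕ))‖ ^ 2 + ‖L / Dx η (x - (-(⌈|x|⌉₊ : ℕ)))‖ ^ 2) := by
  have hpi := Real.pi_gt_three
  have hpi2 : Real.pi ^ 2 < 10 := by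
    have := Real.pi_lt_d2
    nlinarith
  set k : ℕ := ⌈|x|⌉₊ with hk
  have hk1 : |x| ≤ k := Nat.le_ceil _
  have hk2 : (k : ℝ) < |x| + 1 := Nat.ceil_lt_add_one (abs_nonneg _)
  have hx1 : U / (2 * Real.pi) < |x| := by
    rw [abs_mul, abs_of_pos (by positivity : (0 : ℝ) < 2 * Real.pi)] at hx
    rw [div_lt_iff₀ (by positivity)]
    linarith
  have hy : 0 < U / (2 * Real.pi) := by positivity
  have hfl : ⌊U / (2 * Real.pi)⌋₊ < k := by
    have h1 := Nat.floor_le hy.le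
    have h2 : ((⌊U / (2 * Real.pi)⌋₊ : ℕ) : ℝ) < (k : ℝ) := by linarith
    exact_mod_cast h2
  have hk0 : (0 : ℝ) < k := by linarith
  have hcw : cw (U / (2 * Real.pi)) k = ((k : ℝ) ^ 2)⁻¹ := by
    unfold cw
    rw [if_pos hfl]
  rw [hcw]
  -- main inequality
  have hD : (k : ℝ) ^ 2 ≤ 2 * ‖Dx η x‖ ^ 2 := by
    rw [ta_norm]
    have h1 : (k : ℝ) ^ 2 ≤ (|x| + 1) ^ 2 := by gcongr
    have h2 : (|x| + 1) ^ 2 ≤ 2 * (x ^ 2 + 1) := by
      have := sq_abs x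
      nlinarith [sq_nonneg (|x| - 1)]
    have h3 : x ^ 2 ≤ (2 * Real.pi * x) ^ 2 := by
      have : (1 : ℝ) ≤ (2 * Real.pi) ^ 2 := by nlinarith
      have h4 : (2 * Real.pi * x) ^ 2 = (2 * Real.pi) ^ 2 * x ^ 2 := by ring
      rw [h4]
      nlinarith [sq_nonneg x]
    have h5 : 1 ≤ (1 + η) ^ 2 := by nlinarith
    linarith
  have hDpos : 0 < ‖Dx η x‖ ^ 2 := by
    rw [ta_norm]
    positivity
  have key : ∀ z : ℝ, |z| ≤ 1 → ‖L / Dx η x‖ ^ 2 ≤ 88 * ((k : ℝ) ^ 2)⁻¹ * ‖L / Dx η z‖ ^ 2 := by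
    intro z hz
    have hz2 : z ^ 2 ≤ 1 := by
      rw [← sq_abs]
      have := abs_nonneg z
      nlinarith
    have hDz : ‖Dx η z‖ ^ 2 ≤ 44 := by
      rw [ta_norm]
      have h1 : (1 + η) ^ 2 ≤ 4 := by nlinarith
      have h2 : (2 * Real.pi * z) ^ 2 ≤ 40 := by
        have : (2 * Real.pi * z) ^ 2 = 4 * Real.pi ^ 2 * z ^ 2 := by ring
        rw [this]
        have h3 : 0 < Real.pi ^ 2 := by positivity
        nlinarith
      linarith
    have hDzpos : 0 < ‖Dx η z‖ ^ 2 := by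
      rw [ta_norm]
      positivity
    rw [norm_div, norm_div, div_pow, div_pow]
    rw [div_le_iff₀ hDpos]
    have e : 88 * ((k : ℝ) ^ 2)⁻¹ * (‖L‖ ^ 2 / ‖Dx η z‖ ^ 2) * ‖Dx η x‖ ^ 2 =
        ‖L‖ ^ 2 * ((44 / ‖Dx η z‖ ^ 2) * (2 * ‖Dx η x‖ ^ 2 / (k : ℝ) ^ 2)) := by
      field_simp
      ring
    rw [e]
    have h1 : 1 ≤ 44 / ‖Dx η z‖ ^ 2 := by rwa [le_div_iff₀ hDzpos, one_mul]
    have h2 : 1 ≤ 2 * ‖Dx η x‖ ^ 2 / (k : ℝ) ^ 2 := by
      rwa [le_div_iff₀ (by positivity), one_mul]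
    have h3 : 1 ≤ (44 / ‖Dx η z‖ ^ 2) * (2 * ‖Dx η x‖ ^ 2 / (k : ℝ) ^ 2) := by nlinarith
    have h4 : 0 ≤ ‖L‖ ^ 2 := by positivity
    nlinarith
  have hc : 0 ≤ 88 * ((k : ℝ) ^ 2)⁻¹ := by positivity
  rw [mul_add]
  rcases le_total 0 x with h0 | h0
  · rw [abs_of_nonneg h0] at hk1 hk2
    have h1 := key (x - (k : ℕ)) (by rw [abs_le]; constructor <;> linarith)
    have h2 : 0 ≤ 88 * ((k : ℝ) ^ 2)⁻¹ * ‖L / Dx η (x - (-(k : ℕ)))‖ ^ 2 := by positivity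
    linarith
  · rw [abs_of_nonpos h0] at hk1 hk2
    have h1 := key (x - (-(k : ℕ))) (by rw [abs_le]; constructor <;> linarith)
    have h2 : 0 ≤ 88 * ((k : ℝ) ^ 2)⁻¹ * ‖L / Dx η (x - (k : ℕ))‖ ^ 2 := by positivity
    linarith

theorem st_TA : ST_TA := by
  refine ⟨88 * (4 * Real.pi) * (Real.log 4 + 4) ^ 2, ?_, ?_⟩
  · have : 0 < Real.log 4 := Real.log_pos (by norm_num)
    have := Real.pi_pos
    positivity
  intro a η U ha hη hη1 hU
  have hpi := Real.pi_pos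
  set K : ℝ := Real.log 4 + 4 with hK
  set y : ℝ := U / (2 * Real.pi) with hy
  have hy0 : 0 < y := by positivity
  have hint0 := (ta_shift ha hη 0).1
  simp only [sub_zero] at hint0
  set Ψ : ℝ → ℝ → ℝ := fun w x => ‖LSeries a (Dx η x) / Dx η (x - w)‖ ^ 2 with hΨ
  have hΨ0 : ∀ w x, 0 ≤ Ψ w x := fun w x => by rw [hΨ]; positivity
  have hΨi : ∀ w, Integrable (Ψ w) := fun w => (ta_shift ha hη w).1
  have hΨb : ∀ w, ∫ x, Ψ w x ≤ K ^ 2 / (2 * η) := fun w => (ta_shift ha hη w).2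
  have hms : MeasurableSet {ξ : ℝ | U < |2 * Real.pi * ξ|} := by
    apply measurableSet_lt <;> fun_prop
  change ∫ ξ in {ξ : ℝ | U < |2 * Real.pi * ξ|}, ‖LSeries a (Dx η ξ) / Dx η ξ‖ ^ 2 ≤ _
  have hC0 : 0 ≤ 88 * (4 * Real.pi) * K ^ 2 / (η * U) := by positivity
  rw [← ENNReal.ofReal_le_ofReal_iff hC0,
    ofReal_integral_eq_lintegral_ofReal hint0.integrableOn
      (Filter.Eventually.of_forall fun x => by positivity)]
  calc ∫⁻ x in {ξ : ℝ | U < |2 * Real.pi * ξ|},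
        ENNReal.ofReal (‖LSeries a (Dx η x) / Dx η x‖ ^ 2)
      ≤ ∫⁻ x in {ξ : ℝ | U < |2 * Real.pi * ξ|},
        ∑' k : ℕ, ENNReal.ofReal (88 * cw y k * (Ψ k x + Ψ (-k) x)) := by
        refine setLIntegral_mono' hms ?_
        intro x hx
        refine le_trans (ENNReal.ofReal_le_ofReal (ta_pt hη hη1 hU hx)) ?_
        exact ENNReal.le_tsum (f := fun k : ℕ =>
          ENNReal.ofReal (88 * cw y k * (Ψ k x + Ψ (-k) x))) ⌈|x|⌉₊
    _ ≤ ∫⁻ x, ∑' k : ℕ, ENNReal.ofReal (88 * cw y k * (Ψ k x + Ψ (-k) x)) :=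
        setLIntegral_le_lintegral _ _
    _ = ∑' k : ℕ, ∫⁻ x, ENNReal.ofReal (88 * cw y k * (Ψ k x + Ψ (-k) x)) := by
        refine lintegral_tsum fun k => ?_
        exact (((hΨi k).add (hΨi (-k))).const_mul (88 * cw y k)).aestronglyMeasurable.aemeasurable.ennreal_ofReal
    _ ≤ ∑' k : ℕ, ENNReal.ofReal (88 * cw y k * (K ^ 2 / η)) := by
        refine ENNReal.tsum_le_tsum fun k => ?_
        have hi : Integrable (fun x => 88 * cw y k * (Ψ k x + Ψ (-k) x)) :=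
          ((hΨi k).add (hΨi (-k))).const_mul (88 * cw y k)
        have hcw := cw_nonneg y k
        rw [← ofReal_integral_eq_lintegral_ofReal hi
          (Filter.Eventually.of_forall fun x => by
            have := hΨ0 k x
            have := hΨ0 (-k) x
            positivity)]
        apply ENNReal.ofReal_le_ofReal
        have e : ∫ x, 88 * cw y k * (Ψ k x + Ψ (-k) x) =
            88 * cw y k * ((∫ x, Ψ k x) + ∫ x, Ψ (-k) x) := by
          rw [integral_const_mul, integral_add (hΨi k) (hΨi (-k))]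
        rw [e]
        have h1 := hΨb k
        have h2 := hΨb (-k)
        have h3 : K ^ 2 / (2 * η) + K ^ 2 / (2 * η) = K ^ 2 / η := by
          field_simp
          ring
        apply mul_le_mul_of_nonneg_left _ (by positivity)
        linarith
    _ ≤ ENNReal.ofReal (88 * (4 * Real.pi) * K ^ 2 / (η * U)) := by
        refine ENNReal.tsum_le_of_sum_range_le fun n => ?_
        rw [← ENNReal.ofReal_sum_of_nonneg (fun k _ => by
          have hcw := cw_nonneg y k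
          positivity)]
        apply ENNReal.ofReal_le_ofReal
        rw [← Finset.sum_mul, ← Finset.mul_sum]
        have h1 := cw_sum hy0 n
        have h2 : 2 / y = 4 * Real.pi / U := by
          rw [hy]
          field_simp
          ring
        rw [h2] at h1
        have h3 : 88 * (4 * Real.pi) * K ^ 2 / (η * U) = 88 * (4 * Real.pi / U) * (K ^ 2 / η) := by
          field_simp
        rw [h3]
        gcongr

end Pool.Agent.Helper58.AA

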